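import Pool.Agent.MP_52bf41_ag.H12.Spec

/-! Completed local rings of the standard curve. -/

open IsLocalRing Polynomial

namespace Pool.Agent.MP_52bf41_ag.H88

open Pool.Agent.MP_52bf41_ag.H12

variable {k : Type} [Field k]

theorem coeff_eval {σ : Type} (s : σ) (v : σ → PowerSeries k) (h1 : v s = PowerSeries.X)
    (h2 : ∀ j, j ≠ s → v j = 0) (p : MvPolynomial σ k) :
    ∀ a, PowerSeries.coeff a (MvPolynomial.eval₂Hom PowerSeries.C v p) =
      p.coeff (Finsupp.single s a) := by
  classical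
  induction p using MvPolynomial.induction_on with
  | C c =>
    intro a
    rw [MvPolynomial.eval₂Hom_C, PowerSeries.coeff_C, MvPolynomial.coeff_C]
    simp [eq_comm]
  | add p q hp hq => intro a; simp only [map_add, MvPolynomial.coeff_add, hp, hq]
  | mul_X p j hp =>
    intro a
    rw [map_mul, MvPolynomial.eval₂Hom_X', MvPolynomial.coeff_mul_X']
    by_cases h : j = s
    · subst h
      rw [h1]
      rcases a with _ | a
      · simp
      · rw [PowerSeries.coeff_succ_mul_X, hp, if_pos (by simp), ← Finsupp.single_tsub]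
        simp
    · rw [h2 j h, mul_zero, map_zero, if_neg]
      simp [Ne.symm h]

theorem core {σ O : Type} [Finite σ] [CommRing O] (𝔪 : Ideal O) (φ : k →+* O) (x : σ → O)
    (hm : 𝔪 = Ideal.span (Set.range x)) (hr : ∀ o, ∃ c, o - φ c ∈ 𝔪) :
    ∃ F : MvPowerSeries σ k →+* AdicCompletion 𝔪 O, Function.Surjective F ∧
      (∀ j, F (MvPowerSeries.X j) = AdicCompletion.of 𝔪 O (x j)) ∧
      ∀ g, F g = 0 → ∀ (s : σ) (θ : O →+* PowerSeries k), θ.comp φ = PowerSeries.C →
        θ (x s) = PowerSeries.X → (∀ j, j ≠ s → θ (x j) = 0) →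
        ∀ a, MvPowerSeries.coeff (Finsupp.single s a) g = 0 := by
  set ψ : MvPolynomial σ k →+* O := MvPolynomial.eval₂Hom φ x with hψ
  have h1 : (MvPolynomial.idealOfVars σ k).map ψ = 𝔪 := by
    rw [hm, Ideal.map_span, ← Set.range_comp]
    congr 2
    funext j
    simp [hψ]
  have h2 : ∀ n, MvPolynomial.idealOfVars σ k ^ n ≤ (𝔪 ^ n).comap ψ := fun n => by
    rw [← Ideal.map_le_iff_le_comap, Ideal.map_pow, h1]
  let f : (n : ℕ) → MvPowerSeries σ k →+* O ⧸ 𝔪 ^ n := fun n =>
    (Ideal.quotientMap _ ψ (h2 n)).comp (MvPowerSeries.truncTotalAlgHom σ k n).toRingHom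
  have hf0 : ∀ n g, f n g = Ideal.Quotient.mk _ (ψ (MvPowerSeries.truncTotal n g)) :=
    fun n g => rfl
  have hf : ∀ {m n : ℕ} (hle : m ≤ n), (Ideal.Quotient.factorPow 𝔪 hle).comp (f n) = f m := by
    intro m n hle
    ext g
    rw [RingHom.comp_apply, hf0, hf0, Ideal.Quotient.factorPow, Ideal.Quotient.factor_mk,
      Ideal.Quotient.eq, ← map_sub]
    exact h2 m (MvPowerSeries.truncTotal_sub_truncTotal_mem_pow_idealOfVars hle le_rfl g)
  set F := AdicCompletion.liftRingHom 𝔪 f hf with hF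
  have hp : ∀ p : MvPolynomial σ k, F p = AdicCompletion.of 𝔪 O (ψ p) := fun p => by
    refine AdicCompletion.ext_evalₐ fun n => ?_
    rw [hF, AdicCompletion.evalₐ_liftRingHom, AdicCompletion.evalₐ_of]
    have := (MvPowerSeries.truncTotalAlgHom σ k n).commutes p
    exact congrArg (Ideal.quotientMap _ ψ (h2 n)) this
  have hX : ∀ j, F (MvPowerSeries.X j) = AdicCompletion.of 𝔪 O (x j) := fun j => by
    rw [← MvPolynomial.coe_X, hp]; simp [hψ]
  have fg : 𝔪.FG := hm ▸ Submodule.fg_span (Set.finite_range x)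
  refine ⟨F, ?_, hX, fun g hg s θ e1 e2 e3 a => ?_⟩
  · have h3 : (Ideal.span (Set.range MvPowerSeries.X)).map F =
        𝔪.map (algebraMap O (AdicCompletion 𝔪 O)) := by
      refine Eq.trans ?_ (congrArg (Ideal.map (algebraMap O (AdicCompletion 𝔪 O))) hm).symm
      rw [Ideal.map_span, Ideal.map_span, ← Set.range_comp, ← Set.range_comp]
      congr 2
      funext j
      exact hX j
    have := AdicCompletion.isAdicComplete_self 𝔪 fg
    rw [← h3] at this
    refine surjective_of_mk_map_comp_surjective (I := Ideal.span (Set.range MvPowerSeries.X)) F ?_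
    intro y
    obtain ⟨y, rfl⟩ := Ideal.Quotient.mk_surjective y
    obtain ⟨o, ho⟩ := Ideal.Quotient.mk_surjective (AdicCompletion.evalOneₐ 𝔪 y)
    obtain ⟨c, hc⟩ := hr o
    refine ⟨(MvPolynomial.C c : MvPolynomial σ k), ?_⟩
    rw [RingHom.comp_apply, Ideal.Quotient.eq, h3, ← AdicCompletion.ker_evalOneₐ_eq_map 𝔪 fg,
      RingHom.mem_ker, map_sub, hp, sub_eq_zero]
    change AdicCompletion.evalOneₐ 𝔪 _ = AdicCompletion.evalOneₐ 𝔪 _
    rw [← ho, AdicCompletion.evalOneₐ_of, eq_comm, Ideal.Quotient.eq]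
    simpa [hψ] using hc
  · have h4 : ψ (MvPowerSeries.truncTotal (a + 1) g) ∈ 𝔪 ^ (a + 1) := by
      rw [← Ideal.Quotient.eq_zero_iff_mem, ← hf0, ← AdicCompletion.evalₐ_liftRingHom 𝔪 f hf, ← hF,
        hg, map_zero]
    have h5 : 𝔪.map θ ≤ Ideal.span {PowerSeries.X} := by
      rw [hm, Ideal.map_span, Ideal.span_le]
      rintro _ ⟨_, ⟨j, rfl⟩, rfl⟩
      by_cases h : j = s
      · rw [h, e2]; exact Ideal.subset_span rfl
      · rw [e3 j h]; exact Ideal.zero_mem _
    have h6 := Ideal.mem_map_of_mem θ h4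
    rw [Ideal.map_pow] at h6
    have h7 := Ideal.pow_right_mono h5 _ h6
    rw [Ideal.span_singleton_pow, Ideal.mem_span_singleton, PowerSeries.X_pow_dvd_iff] at h7
    have h8 := h7 a (by omega)
    rw [hψ, MvPolynomial.map_eval₂Hom, e1, coeff_eval s _ e2 e3,
      MvPowerSeries.coeff_truncTotal _ (by simp)] at h8
    exact h8

variable {B O : Type} [CommRing B] [CommRing O] [IsLocalRing O] [Algebra B O]
  (m : Ideal B) [m.IsPrime] [IsLocalization.AtPrime O m]

theorem gen {σ : Type} [Finite σ] (φ : k →+* B) (x : σ → B) (hx : ∀ j, x j ∈ m)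
    (hB : ∀ b, ∃ c, b - φ c ∈ Ideal.span (Set.range x)) :
    ∃ F : MvPowerSeries σ k →+* AdicCompletion (maximalIdeal O) O, Function.Surjective F ∧
      (∀ j, F (MvPowerSeries.X j) = algebraMap B _ (x j)) ∧
      ∀ g, F g = 0 → ∀ (s : σ) (θ : B →+* PowerSeries k), θ.comp φ = PowerSeries.C →
        θ (x s) = PowerSeries.X → (∀ j, j ≠ s → θ (x j) = 0) →
        ∀ a, MvPowerSeries.coeff (Finsupp.single s a) g = 0 := by
  have h0 : Ideal.span (Set.range x) ≤ m := by
    rw [Ideal.span_le]; rintro _ ⟨j, rfl⟩; exact hx j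
  have h1 : ∀ c, φ c ∈ m → c = 0 := fun c hc => by
    by_contra h
    exact Ideal.IsPrime.ne_top' (m.eq_top_of_isUnit_mem hc ((IsUnit.mk0 c h).map φ))
  have h2 : m = Ideal.span (Set.range x) := le_antisymm (fun b hb => by
    obtain ⟨c, hc⟩ := hB b
    have : c = 0 := h1 c (by simpa using m.sub_mem hb (h0 hc))
    simpa [this] using hc) h0
  have h3 : ∀ s : m.primeCompl, ∃ c, c ≠ 0 ∧ s.1 - φ c ∈ m := fun s => by
    obtain ⟨c, hc⟩ := hB s
    exact ⟨c, fun h => s.2 (by simpa [h] using h0 hc), h0 hc⟩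
  have h4 : ∀ b ∈ m, algebraMap B O b ∈ maximalIdeal O := fun b hb =>
    (IsLocalization.AtPrime.to_map_mem_maximal_iff O m b).2 hb
  obtain ⟨F, s1, s2, s3⟩ := core (maximalIdeal O) ((algebraMap B O).comp φ)
    (fun j => algebraMap B O (x j)) (by
      rw [← IsLocalization.AtPrime.map_eq_maximalIdeal m O]
      conv_lhs => rw [h2]
      rw [Ideal.map_span, ← Set.range_comp]
      rfl) (fun o => by
      obtain ⟨⟨b, s⟩, e⟩ := IsLocalization.surj m.primeCompl o
      obtain ⟨c, hc⟩ := hB b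
      obtain ⟨c', h', hc'⟩ := h3 s
      refine ⟨c / c', (Ideal.mul_unit_mem_iff_mem _ (IsLocalization.map_units O s)).1 ?_⟩
      have e2 : φ (c / c') * φ c' = φ c := by rw [← map_mul, div_mul_cancel₀ _ h']
      have := h4 _ (m.sub_mem (h0 hc) (m.mul_mem_left (φ (c / c')) hc'))
      rw [mul_sub, e2] at this
      rw [sub_mul, e]
      simpa using this)
  refine ⟨F, s1, s2, fun g hg s θ e1 e2 e3 => ?_⟩
  have h5 : ∀ b ∈ m, PowerSeries.constantCoeff (θ b) = 0 := fun b hb => by
    have : Ideal.span (Set.range x) ≤ RingHom.ker (PowerSeries.constantCoeff.comp θ) := by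
      rw [Ideal.span_le]
      rintro _ ⟨j, rfl⟩
      by_cases h : j = s
      · simp [h, e2]
      · simp [e3 j h]
    exact this (h2 ▸ hb)
  have h6 : ∀ y : m.primeCompl, IsUnit (θ y) := fun y => by
    obtain ⟨c, h, hc⟩ := h3 y
    have := h5 _ hc
    rw [map_sub, map_sub, sub_eq_zero, ← RingHom.comp_apply θ φ, e1] at this
    rw [PowerSeries.isUnit_iff_constantCoeff, this]
    simpa using h
  refine s3 g hg s (IsLocalization.lift h6) ?_ (by simpa using e2) fun j h => by simpa using e3 j h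
  rw [← RingHom.comp_assoc, IsLocalization.lift_comp, e1]

theorem smooth (φ : k →+* B) (x : B) (hx : x ∈ m) (hB : ∀ b, ∃ c, b - φ c ∈ Ideal.span {x})
    (θ : B →+* PowerSeries k) (e1 : θ.comp φ = PowerSeries.C) (e2 : θ x = PowerSeries.X) :
    Nonempty (AdicCompletion (maximalIdeal O) O ≃+* PowerSeries k) := by
  obtain ⟨F, s1, -, s3⟩ := gen (O := O) m φ (fun _ : Unit => x) (fun _ => hx)
    (by simpa using hB)
  refine ⟨(RingEquiv.ofBijective F ⟨(injective_iff_map_eq_zero F).2 fun g hg => ?_, s1⟩).symm⟩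
  ext a
  exact s3 g hg () θ e1 e2 (fun j h => (h rfl).elim) a

theorem cplA : SCplA := by
  intro k B O _ _ _ _ _ m _ _ φ g c hg hc
  let _ := φ.toAlgebra
  have : IsLocalization.Away g B := hg
  have h0 : ∀ p : k[X], φ p - φ (C (p.eval c)) ∈ Ideal.span {φ (X - C c)} := fun p => by
    rw [← map_sub, Ideal.mem_span_singleton]
    exact map_dvd φ X_sub_C_dvd_sub_C_eval
  have hu : IsUnit (φ g) := IsLocalization.Away.algebraMap_isUnit (S := B) g
  have h1 : g.eval c ≠ 0 := fun h => by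
    have := (Ideal.span_singleton_le_iff_mem m).2 hc (h0 g)
    rw [h, map_zero, map_zero, sub_zero] at this
    exact Ideal.IsPrime.ne_top' (m.eq_top_of_isUnit_mem this hu)
  let η : k[X] →+* PowerSeries k := eval₂RingHom PowerSeries.C (PowerSeries.C c + PowerSeries.X)
  have h2 : IsUnit (η g) := by
    rw [PowerSeries.isUnit_iff_constantCoeff]
    have : PowerSeries.constantCoeff.comp η = evalRingHom c := by
      ext <;> simp [η]
    rw [← RingHom.comp_apply, this]
    exact IsUnit.mk0 _ h1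
  have h3 : ∀ p, IsLocalization.Away.lift (S := B) g h2 (φ p) = η p :=
    IsLocalization.Away.lift_eq g h2
  refine smooth m (φ.comp C) _ hc (fun b => ?_) (IsLocalization.Away.lift (S := B) g h2) ?_ ?_
  · obtain ⟨n, p, e⟩ := IsLocalization.Away.surj g b
    change b * φ g ^ n = φ p at e
    refine ⟨p.eval c / g.eval c ^ n, (Ideal.mul_unit_mem_iff_mem _ (hu.pow n)).1 ?_⟩
    have e2 : φ (C (p.eval c / g.eval c ^ n)) * φ (C ((g ^ n).eval c)) = φ (C (p.eval c)) := by
      rw [← map_mul, ← map_mul, eval_pow, div_mul_cancel₀ _ (pow_ne_zero _ h1)]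
    have := Ideal.sub_mem _ (h0 p) (Ideal.mul_mem_left _ (φ (C (p.eval c / g.eval c ^ n)))
      (h0 (g ^ n)))
    rw [mul_sub, e2, map_pow] at this
    rw [sub_mul, e]
    simpa using this
  · ext1 a
    simp [h3, η]
  · rw [h3]; simp [η]

variable {D : ℕ} {φ : k →+* B} {u : Option (Fin D) → B} {q t : Fin D → k}

theorem hrel (h : Pres φ u q t) (l : Fin D) : (u none - φ (q l)) * u (some l) = φ (t l) := by
  have := (h.2 (rel q t l)).2 (Ideal.subset_span ⟨l, rfl⟩)
  simpa [rel, sub_eq_zero] using this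

theorem theta (h : Pres φ u q t) (v : Option (Fin D) → PowerSeries k)
    (hv : ∀ l, (v none - PowerSeries.C (q l)) * v (some l) = PowerSeries.C (t l)) :
    ∃ θ : B →+* PowerSeries k, θ.comp φ = PowerSeries.C ∧ ∀ a, θ (u a) = v a := by
  have hk : RingHom.ker (MvPolynomial.eval₂Hom φ u) ≤
      RingHom.ker (MvPolynomial.eval₂Hom PowerSeries.C v) := fun p hp => by
    refine (Ideal.span_le.2 ?_ : _ ≤ RingHom.ker _) ((h.2 p).1 hp)
    rintro _ ⟨l, rfl⟩
    simp [rel, hv]
  have e := RingHom.liftOfRightInverse_comp_apply _ _ (Function.rightInverse_surjInv h.1) ⟨_, hk⟩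
  refine ⟨_, RingHom.ext fun c => ?_, fun a => by simpa using e (MvPolynomial.X a)⟩
  simpa using e (MvPolynomial.C c)

theorem resid (h : Pres φ u q t) (N : Ideal B) (c : k) (hc : u none - φ c ∈ N)
    (hl : ∀ l, c = q l → u (some l) ∈ N) (b : B) : ∃ e, b - φ e ∈ N := by
  obtain ⟨p, rfl⟩ := h.1 b
  induction p using MvPolynomial.induction_on with
  | C a => exact ⟨a, by simp⟩
  | add p q hp hq =>
    obtain ⟨a, ha⟩ := hp
    obtain ⟨b, hb⟩ := hq
    exact ⟨a + b, by rw [map_add, map_add, add_sub_add_comm]; exact N.add_mem ha hb⟩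
  | mul_X p j hp =>
    obtain ⟨a, ha⟩ := hp
    obtain ⟨b, hb⟩ : ∃ b, u j - φ b ∈ N := by
      rcases j with _ | l
      · exact ⟨c, hc⟩
      · by_cases e : c = q l
        · exact ⟨0, by simpa using hl l e⟩
        · have e' : c - q l ≠ 0 := sub_ne_zero.2 e
          refine ⟨t l / (c - q l), (N.mul_unit_mem_iff_mem ((IsUnit.mk0 _ e').map φ)).1 ?_⟩
          rw [sub_mul, ← map_mul, div_mul_cancel₀ _ e', ← hrel h l, map_sub]
          convert N.mul_mem_left (-u (some l)) hc using 1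
          ring
    refine ⟨a * b, ?_⟩
    rw [map_mul, map_mul, MvPolynomial.eval₂Hom_X']
    convert N.add_mem (N.mul_mem_right (u j) ha) (N.mul_mem_left (φ a) hb) using 1
    ring

theorem inv_aux {c d e : k} (h : c ≠ d) {y : PowerSeries k} (hy : PowerSeries.constantCoeff y = c) :
    (y - PowerSeries.C d) * (PowerSeries.C e * (y - PowerSeries.C d)⁻¹) = PowerSeries.C e := by
  rw [mul_left_comm, PowerSeries.mul_inv_cancel _ (by simpa [hy, sub_eq_zero] using h), mul_one]

theorem cplB : SCplB := by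
  intro k B O _ _ _ _ _ m _ _ D φ u q t c _ h hc hl
  obtain ⟨θ, e1, e2⟩ := theta h (fun a => a.elim (PowerSeries.C c + PowerSeries.X) fun l =>
    PowerSeries.C (t l) * (PowerSeries.C c + PowerSeries.X - PowerSeries.C (q l))⁻¹)
    fun l => inv_aux (hl l) (by simp)
  refine smooth m φ _ hc (resid h _ c (Ideal.subset_span rfl) fun l e => (hl l e).elim) θ e1 ?_
  rw [map_sub, e2, ← RingHom.comp_apply, e1]
  simp

theorem cplC : SCplC := by
  intro k B O _ _ _ _ _ m _ _ D φ u q t i hq h hz hw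
  classical
  have hne : ∀ l, l ≠ i → q i ≠ q l := fun l hl =>
    sub_ne_zero.1 (hq.1 i l hl.symm).ne_zero
  have ht : t i = 0 := by
    by_contra e
    exact Ideal.IsPrime.ne_top' (m.eq_top_of_isUnit_mem (hrel h i ▸ m.mul_mem_left _ hw)
      ((IsUnit.mk0 _ e).map φ))
  have key : ∀ y y' : PowerSeries k, PowerSeries.constantCoeff y = 0 → y * y' = 0 →
      ∃ θ : B →+* PowerSeries k, θ.comp φ = PowerSeries.C ∧ θ (u none - φ (q i)) = y ∧
        θ (u (some i)) = y' := fun y y' h0 h1 => by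
    obtain ⟨θ, e1, e2⟩ := theta h (fun a => a.elim (PowerSeries.C (q i) + y) fun l =>
      if l = i then y' else
        PowerSeries.C (t l) * (PowerSeries.C (q i) + y - PowerSeries.C (q l))⁻¹) fun l => by
      by_cases e : l = i
      · simp [e, h1, ht]
      · simp only [Option.elim, if_neg e]
        exact inv_aux (hne l e) (by simp [h0])
    refine ⟨θ, e1, ?_, by simp [e2]⟩
    rw [map_sub, e2, ← RingHom.comp_apply, e1]
    simp
  obtain ⟨θ0, a0, b0, c0⟩ := key PowerSeries.X 0 (by simp) (by simp)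
  obtain ⟨θ1, a1, b1, c1⟩ := key 0 PowerSeries.X (by simp) (by simp)
  obtain ⟨F, s1, s2, s3⟩ := gen (O := O) m φ ![u none - φ (q i), u (some i)]
    (fun j => by fin_cases j <;> assumption)
    (resid h _ (q i) (Ideal.subset_span ⟨0, rfl⟩) fun l e => by
      have : l = i := by
        by_contra e'
        exact hne l e' e
      exact this ▸ Ideal.subset_span ⟨1, rfl⟩)
  have hk : Ideal.span {(MvPowerSeries.X 0 * MvPowerSeries.X 1 : MvPowerSeries (Fin 2) k)} =
      RingHom.ker F := by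
    refine le_antisymm ?_ fun g hg => ?_
    · rw [Ideal.span_singleton_le_iff_mem, RingHom.mem_ker, map_mul, s2, s2, ← map_mul]
      simp [hrel h i, ht]
    · have k0 := s3 g hg 0 θ0 a0 b0 fun j hj => by fin_cases j <;> simp_all
      have k1 := s3 g hg 1 θ1 a1 c1 fun j hj => by fin_cases j <;> simp_all
      obtain ⟨g1, rfl⟩ : MvPowerSeries.X 0 ∣ g := MvPowerSeries.X_dvd_iff.2 fun n hn => by
        rw [show n = Finsupp.single 1 (n 1) by ext j; fin_cases j <;> simp [hn]]
        exact k1 _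
      obtain ⟨g2, rfl⟩ : MvPowerSeries.X 1 ∣ g1 := MvPowerSeries.X_dvd_iff.2 fun n hn => by
        have := k0 (n 0 + 1)
        rw [show Finsupp.single (0 : Fin 2) (n 0 + 1) = Finsupp.single 0 1 + n by
          ext j; fin_cases j <;> simp [hn, add_comm], MvPowerSeries.X_def,
          MvPowerSeries.coeff_add_monomial_mul, one_mul] at this
        exact this
      rw [← mul_assoc]
      exact Ideal.mul_mem_right _ _ (Ideal.subset_span rfl)
  exact ⟨((Ideal.quotEquivOfEq hk).trans (RingHom.quotientKerEquivOfSurjective s1)).symm⟩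

end Pool.Agent.MP_52bf41_ag.H88
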